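import Mathlib
import Pool.Agent.Lib_helper57.LDCDefs
import Pool.Agent.Lib_helper57.LDCHard

/-! Q1: the problem `LDC` is NP-hard. -/

namespace Pool.Agent.Results.MP_722fe9_lc.LDCHard

open Pool.Agent.Lib57

/-- The problem `LDC` (given the adjacency matrix of a connected graph `G` and a number `k` in
binary, is `C_L(G) ≥ k`?) is NP-hard with respect to polynomial-time many-one reductions. -/
theorem result : NPHard LDC := npHard_LDC

end Pool.Agent.Results.MP_722fe9_lc.LDCHard
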