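import Mathlib
import Pool.Agent.Lib_helper57.LDCDefs
import Pool.Agent.Lib_helper57.LDCHard

/-! Q2: there is a fixed integer `k`, namely `k = 42`, such that `LDC_k` is NP-hard. -/

namespace Pool.Agent.Results.MP_722fe9_lc.LDCkHard

open Pool.Agent.Lib57

/-- The problem `LDC_42` (given the adjacency matrix of a connected graph `G`, is
`C_L(G) ≥ 42`?) is NP-hard with respect to polynomial-time many-one reductions. -/
theorem result : NPHard (LDCk 42) := npHard_LDCk

end Pool.Agent.Results.MP_722fe9_lc.LDCkHard
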